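import Pool.Agent.Helper89_R3M.Pte

/-!
# R3M: a path without shortcuts between two separated cycles (row PTA)
-/

set_option autoImplicit false

namespace Pool.Agent.R3M.H89

open Pool.Agent.R3M

theorem pta : PtaStmt := by
  intro α _ M N P S a b g d h e hg hh hs hirr
  obtain ⟨l, f, z, hp, hmin⟩ := pte α M N P S a b g d h e hg hh hirr
  have hpos : 1 ≤ l := (ptm α M N P S a l b g d f z h e hg hh hs hp hmin).1
  -- first modification
  have s1 : ∃ f z : ℕ → α, Pth M N P a l b g f z h ∧
      ((∃ j, j < b ∧ z (l - 1) = e j ∧ f l = h (j + 1)) ∨
        ∀ j, j < b → ¬ Arc M P (f (l - 1)) (e j)) := by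
    by_cases hA : ∃ j, j < b ∧ Arc M P (f (l - 1)) (e j)
    · obtain ⟨j, hj, hA⟩ := hA
      obtain ⟨k, hk, hek⟩ := cyc_lt hh (show j + 1 ≤ b from hj)
      refine ⟨fun t => if t < l then f t else h (j + 1), fun t => if t < l - 1 then z t else e j,
        ?_, Or.inl ⟨j, hj, ?_, ?_⟩⟩
      · exact
          { f0 := by
              show ∃ i, i < a ∧ (if 0 < l then f 0 else h (j + 1)) = g i
              rw [if_pos (by omega)]; exact hp.f0
            fl := by
              show ∃ i, i < b ∧ (if l < l then f l else h (j + 1)) = h i
              rw [if_neg (by omega)]; exact ⟨k, hk, hek⟩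
            fP := by
              intro t ht
              show (if t < l then f t else h (j + 1)) ∈ P
              by_cases h0 : t < l
              · rw [if_pos h0]; exact hp.fP t ht
              · rw [if_neg h0]; exact cyc_mem hh hj
            zP := by
              intro t ht
              show (if t < l - 1 then z t else e j) ∉ P
              by_cases h0 : t < l - 1
              · rw [if_pos h0]; exact hp.zP t ht
              · rw [if_neg h0]; exact hh.eP j hj
            aM := by
              intro t ht
              show Arc M P (if t < l then f t else h (j + 1)) (if t < l - 1 then z t else e j)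
              rw [if_pos ht]
              by_cases h0 : t < l - 1
              · rw [if_pos h0]; exact hp.aM t ht
              · rw [if_neg h0]
                have h1 : t = l - 1 := by omega
                rw [h1]; exact hA
            aN := by
              intro t ht
              show Arc N P (if t + 1 < l then f (t + 1) else h (j + 1))
                (if t < l - 1 then z t else e j)
              by_cases h0 : t < l - 1
              · rw [if_pos h0, if_pos (by omega)]; exact hp.aN t ht
              · rw [if_neg h0, if_neg (by omega)]; exact hh.aN j hj }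
      · show (if l - 1 < l - 1 then z (l - 1) else e j) = e j
        rw [if_neg (by omega)]
      · show (if l < l then f l else h (j + 1)) = h (j + 1)
        rw [if_neg (by omega)]
    · exact ⟨f, z, hp, Or.inr fun j hj hA2 => hA ⟨j, hj, hA2⟩⟩
  obtain ⟨f1, z1, hp1, hq1⟩ := s1
  -- second modification
  have s2 : ∃ f z : ℕ → α, Pth M N P a l b g f z h ∧
      ((∃ j, j < b ∧ z (l - 1) = e j ∧ f l = h (j + 1)) ∨
        ∀ j, j < b → ¬ Arc M P (f (l - 1)) (e j)) ∧
      ((∃ j, j < a ∧ z 0 = d j ∧ f 0 = g (j + 1)) ∨
        ∀ j, j < a → ¬ Arc N P (f 1) (d j)) := by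
    rcases Nat.lt_or_ge 1 l with hl2 | hl1
    · by_cases hA : ∃ j, j < a ∧ Arc N P (f1 1) (d j)
      · obtain ⟨j, hj, hA⟩ := hA
        obtain ⟨k, hk, hek⟩ := cyc_lt hg (show j + 1 ≤ a from hj)
        refine ⟨fun t => if t = 0 then g (j + 1) else f1 t, fun t => if t = 0 then d j else z1 t,
          ?_, ?_, Or.inl ⟨j, hj, ?_, ?_⟩⟩
        · exact
            { f0 := ⟨k, hk, by
                show (if 0 = 0 then g (j + 1) else f1 0) = g k
                rw [if_pos rfl]; exact hek⟩
              fl := by
                show ∃ i, i < b ∧ (if l = 0 then g (j + 1) else f1 l) = h i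
                rw [if_neg (by omega)]; exact hp1.fl
              fP := by
                intro t ht
                show (if t = 0 then g (j + 1) else f1 t) ∈ P
                by_cases h0 : t = 0
                · rw [if_pos h0]; exact cyc_mem hg hj
                · rw [if_neg h0]; exact hp1.fP t ht
              zP := by
                intro t ht
                show (if t = 0 then d j else z1 t) ∉ P
                by_cases h0 : t = 0
                · rw [if_pos h0]; exact hg.eP j hj
                · rw [if_neg h0]; exact hp1.zP t ht
              aM := by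
                intro t ht
                show Arc M P (if t = 0 then g (j + 1) else f1 t) (if t = 0 then d j else z1 t)
                by_cases h0 : t = 0
                · rw [if_pos h0, if_pos h0]; exact hg.aN j hj
                · rw [if_neg h0, if_neg h0]; exact hp1.aM t ht
              aN := by
                intro t ht
                show Arc N P (if t + 1 = 0 then g (j + 1) else f1 (t + 1))
                  (if t = 0 then d j else z1 t)
                rw [if_neg (by omega)]
                by_cases h0 : t = 0
                · rw [if_pos h0, h0]; exact hA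
                · rw [if_neg h0]; exact hp1.aN t ht }
        · show (∃ k, k < b ∧ (if l - 1 = 0 then d j else z1 (l - 1)) = e k ∧
              (if l = 0 then g (j + 1) else f1 l) = h (k + 1)) ∨
            ∀ k, k < b → ¬ Arc M P (if l - 1 = 0 then g (j + 1) else f1 (l - 1)) (e k)
          rw [if_neg (by omega), if_neg (by omega), if_neg (by omega)]
          exact hq1
        · show (if 0 = 0 then d j else z1 0) = d j
          rw [if_pos rfl]
        · show (if 0 = 0 then g (j + 1) else f1 0) = g (j + 1)
          rw [if_pos rfl]
      · exact ⟨f1, z1, hp1, hq1, Or.inr fun j hj hA2 => hA ⟨j, hj, hA2⟩⟩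
    · have hl : l = 1 := le_antisymm hl1 hpos
      refine ⟨f1, z1, hp1, hq1, Or.inr fun j hj hA => ?_⟩
      obtain ⟨i, hi, hf⟩ := hp1.fl
      rw [hl] at hf
      rw [hf] at hA
      exact (hs.2.2 j i hj hi.le).2 hA
  obtain ⟨f2, z2, hp2, hq2, hr2⟩ := s2
  obtain ⟨h1, h2, h3, h4, h5, h6, h7, h8, h9⟩ :=
    ptm α M N P S a l b g d f2 z2 h e hg hh hs hp2 hmin
  exact ⟨l, f2, z2,
    { lpos := hpos
      f0 := hp2.f0
      fl := hp2.fl
      fP := hp2.fP
      zP := hp2.zP
      aM := hp2.aM
      aN := hp2.aN
      fg := h2
      fh := h3
      m1 := h4
      m2 := h5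
      m3 := h6
      n1 := h7
      n2 := h8
      n3 := h9
      q1 := hq2
      q2 := hr2 }⟩

end Pool.Agent.R3M.H89
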