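import Pool.Agent.Helper89_R3M.Rot

/-!
# R3M: from `Pre` to `Conf` by rotating the two cycles (row PTB)
-/

set_option autoImplicit false

namespace Pool.Agent.R3M.H89

open Pool.Agent.R3M

theorem ptb : PtbStmt := by
  intro α _ M N P S a l b g d f z h e hg hh hs hp
  have a2 := hg.two
  have b2 := hh.two
  have hl := hp.lpos
  obtain ⟨r, hr, hf0⟩ := hp.f0
  obtain ⟨s, hs', hfl⟩ := hp.fl
  obtain ⟨g', d', hg', g1, -, -, g4, g5, g6, -, -⟩ := rot α N M P S a g d r hg hr
  obtain ⟨h', e', hh', h1, -, -, h4, h5, h6, -, -⟩ := rot α M N P S b h e s hh hs'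
  have sgh : ∀ i j, i ≤ a → j ≤ b → g' i ≠ h' j := by
    intro i j hi hj he
    obtain ⟨i1, hi1, e1⟩ := g5 i hi
    obtain ⟨j1, hj1, e2⟩ := h5 j hj
    exact hs.1 i1 j1 hi1 hj1 (by rw [← e1, ← e2]; exact he)
  have sge : ∀ i j, i ≤ a → j < b → ¬ Arc M P (g' i) (e' j) ∧ ¬ Arc N P (g' i) (e' j) := by
    intro i j hi hj
    obtain ⟨i1, hi1, e1⟩ := g5 i hi
    obtain ⟨j1, hj1, e2⟩ := h6 j hj
    rw [e1, e2]
    exact hs.2.1 i1 j1 hi1 hj1
  have shd : ∀ i j, i < a → j ≤ b → ¬ Arc M P (h' j) (d' i) ∧ ¬ Arc N P (h' j) (d' i) := by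
    intro i j hi hj
    obtain ⟨i1, hi1, e1⟩ := g6 i hi
    obtain ⟨j1, hj1, e2⟩ := h5 j hj
    rw [e1, e2]
    exact hs.2.2 i1 j1 hi1 hj1
  have ga : g' (a - 1 + 1) = g' 0 := by
    have : a - 1 + 1 = a := by omega
    rw [this]; exact hg'.wrap
  have hb : h' (b - 1 + 1) = h' 0 := by
    have : b - 1 + 1 = b := by omega
    rw [this]; exact hh'.wrap
  have hinj : ∀ i j, i < j → j ≤ l → f i ≠ f j := by
    intro i j hij hjl he
    rcases Nat.lt_or_ge j l with hj | hj
    · exact hp.m2 i j hij hj (he ▸ hp.aM j hj)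
    · have : j = l := le_antisymm hjl hj
      subst this
      exact hp.fh s i hs'.le hij (he.trans hfl)
  have zinj : ∀ i j, i < j → j < l → z i ≠ z j := by
    intro i j hij hjl he
    exact hp.m2 i j hij hjl (he ▸ hp.aM i (by omega))
  refine ⟨g', d', h', e',
    { c1 := hg'
      c2 := hh'
      lpos := hl
      f0 := by rw [g1, hf0]
      fl := by rw [h1, hfl]
      fP := hp.fP
      zP := hp.zP
      gh := sgh
      fg := ?_
      fh := ?_
      finj := ?_
      zinj := ?_
      de := ?_
      zd := ?_
      ze := ?_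
      hM := ?_
      hN := ?_ }, ⟨r, hr.le, g1⟩, ⟨s, hs'.le, h1⟩⟩
  · intro i j hi hj1 hjl he
    obtain ⟨i1, hi1, e1⟩ := g5 i hi
    exact hp.fg i1 j hi1 hj1 hjl (he.trans e1)
  · intro i j hi hjl he
    obtain ⟨i1, hi1, e1⟩ := h5 i hi
    exact hp.fh i1 j hi1 hjl (he.trans e1)
  · intro i j hi hj he
    rcases lt_trichotomy i j with h0 | h0 | h0
    · exact absurd he (hinj i j h0 hj)
    · exact h0
    · exact absurd he.symm (hinj j i h0 hi)
  · intro i j hi hj he
    rcases lt_trichotomy i j with h0 | h0 | h0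
    · exact absurd he (zinj i j h0 hj)
    · exact h0
    · exact absurd he.symm (zinj j i h0 hi)
  · intro i j hi hj he
    exact (sge i j hi.le hj).2 (he ▸ hg'.aM i hi)
  · intro i j hi hj he
    rcases Nat.eq_zero_or_pos j with h0 | h0
    · subst h0
      refine ⟨rfl, ?_⟩
      by_contra hne
      have hA : Arc M P (f 0) (z 0) := hp.aM 0 hj
      rw [he, hf0, ← g1, ← ga] at hA
      exact hg'.cN (a - 1) i (by omega) hi (fun hh => hne hh.symm) hA
    · exfalso
      have hA : Arc M P (g' (i + 1)) (d' i) := hg'.aN i hi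
      obtain ⟨i1, hi1, e1⟩ := g5 (i + 1) hi
      rw [← he, e1] at hA
      exact hp.m1 i1 j hi1 h0 hj hA
  · intro i j hi hj he
    rcases Nat.lt_or_ge (j + 1) l with h0 | h0
    · exfalso
      have hA : Arc N P (h' (i + 1)) (e' i) := hh'.aN i hi
      obtain ⟨i1, hi1, e1⟩ := h5 (i + 1) hi
      rw [← he, e1] at hA
      exact hp.n1 i1 j hi1 h0 hA
    · have hj1 : j = l - 1 := by omega
      refine ⟨hj1, ?_⟩
      by_contra hne
      have hA : Arc N P (f (j + 1)) (z j) := hp.aN j hj
      have hj2 : j + 1 = l := by omega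
      rw [he, hj2, hfl, ← h1, ← hb] at hA
      exact hh'.cN (b - 1) i (by omega) hi (fun hh => hne hh.symm) hA
  · exact
      { a1 := fun i hi => hg'.aN i hi
        a2 := hp.aM
        a3 := fun i hi => hh'.aM i hi
        c1 := fun i j hi hj hij => hg'.cN i j hi hj hij
        c2 := by
          intro i j hi hj hjl
          obtain ⟨i1, hi1, e1⟩ := g5 i hi
          rw [e1]; exact hp.m1 i1 j hi1 hj hjl
        c3 := fun i j hi hj => (sge i j hi hj).1
        c4 := hp.m2
        c5 := by
          intro i j hi hj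
          obtain ⟨j1, hj1, e2⟩ := h6 j hj
          rw [e2]; exact hp.m3 i j1 hi hj1
        c6 := by
          rcases hp.q1 with ⟨j, hj, hz, hf⟩ | hq
          · left
            rw [h4, hz]
            rcases Nat.lt_or_ge (j + 1) b with h0 | h0
            · have hsj : s = j + 1 := hh.hinj s (j + 1) hs' h0 (by rw [← hfl, hf])
              rw [if_neg (by omega), hsj, Nat.add_sub_cancel]
            · have hjb : j + 1 = b := by omega
              have hs0 : s = 0 := hh.hinj s 0 hs' (by omega) (by rw [← hfl, hf, hjb, hh.wrap])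
              rw [if_pos hs0]
              congr 1
              omega
          · right
            intro j hj
            obtain ⟨j1, hj1, e2⟩ := h6 j hj
            rw [e2]; exact hq j1 hj1
        c7 := fun i j hi hj hij => hh'.cM i j hi hj hij }
  · exact
      { a1 := fun i hi => hh'.aN i hi
        a2 := by
          intro j hj
          show Arc N P (f (l - j)) (z (l - 1 - j))
          have : l - j = l - 1 - j + 1 := by omega
          rw [this]; exact hp.aN _ (by omega)
        a3 := fun i hi => hg'.aM i hi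
        c1 := fun i j hi hj hij => hh'.cN i j hi hj hij
        c2 := by
          intro i j hi hj hjl
          show ¬ Arc N P (h' i) (z (l - 1 - j))
          obtain ⟨i1, hi1, e1⟩ := h5 i hi
          rw [e1]; exact hp.n1 i1 _ hi1 (by omega)
        c3 := fun i j hi hj => (shd j i hj hi).2
        c4 := by
          intro i j hij hjl
          show ¬ Arc N P (f (l - i)) (z (l - 1 - j))
          exact hp.n2 _ _ (by omega) (by omega)
        c5 := by
          intro i j hi hj
          show ¬ Arc N P (f (l - i)) (d' j)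
          obtain ⟨j1, hj1, e2⟩ := g6 j hj
          rw [e2]; exact hp.n3 _ j1 (by omega) (by omega) hj1
        c6 := by
          show z (l - 1 - (l - 1)) = d' (a - 1) ∨ ∀ j, j < a → ¬ Arc N P (f (l - (l - 1))) (d' j)
          have e0 : l - 1 - (l - 1) = 0 := by omega
          have e1 : l - (l - 1) = 1 := by omega
          rw [e0, e1]
          rcases hp.q2 with ⟨j, hj, hz, hf⟩ | hq
          · left
            rw [g4, hz]
            rcases Nat.lt_or_ge (j + 1) a with h0 | h0
            · have hsj : r = j + 1 := hg.hinj r (j + 1) hr h0 (by rw [← hf0, hf])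
              rw [if_neg (by omega), hsj, Nat.add_sub_cancel]
            · have hjb : j + 1 = a := by omega
              have hs0 : r = 0 := hg.hinj r 0 hr (by omega) (by rw [← hf0, hf, hjb, hg.wrap])
              rw [if_pos hs0]
              congr 1
              omega
          · right
            intro j hj
            obtain ⟨j1, hj1, e2⟩ := g6 j hj
            rw [e2]; exact hq j1 hj1
        c7 := fun i j hi hj hij => hg'.cM i j hi hj hij }

end Pool.Agent.R3M.H89
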