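import Pool.Agent.R3M.Kit

/-!
# R3M: shortest paths between two cycles (rows PTM)
-/

set_option autoImplicit false

namespace Pool.Agent.R3M.H89

open Pool.Agent.R3M

section
variable {α : Type} [DecidableEq α]

/-- Every vertex of a cycle has an index below the length. -/
theorem cyc_lt {M N : Mat α} {P S : Finset α} {m : ℕ} {h e : ℕ → α} (hc : Cyc M N P S m h e)
    {i : ℕ} (hi : i ≤ m) : ∃ j, j < m ∧ h i = h j := by
  rcases Nat.lt_or_ge i m with h1 | h1
  · exact ⟨i, h1, rfl⟩
  · have h2 : i = m := le_antisymm hi h1
    refine ⟨0, ?_, ?_⟩
    · have := hc.two
      omega
    · rw [h2]; exact hc.wrap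

theorem cyc_mem {M N : Mat α} {P S : Finset α} {m : ℕ} {h e : ℕ → α} (hc : Cyc M N P S m h e)
    {i : ℕ} (hi : i ≤ m) : h i ∈ P := by
  obtain ⟨j, hj, he⟩ := cyc_lt hc hi
  rw [he]; exact hc.hP j hj

theorem cyc_notS {M N : Mat α} {P S : Finset α} {m : ℕ} {h e : ℕ → α} (hc : Cyc M N P S m h e)
    {i : ℕ} (hi : i ≤ m) : h i ∉ S := by
  obtain ⟨j, hj, he⟩ := cyc_lt hc hi
  rw [he]; exact hc.hS j hj

end

theorem ptm : PtmStmt := by
  intro α _ M N P S a l b g d f z h e hg hh hs hp hmin
  have a2 := hg.two
  have b2 := hh.two
  have hlpos : 1 ≤ l := by
    rcases Nat.eq_zero_or_pos l with h0 | h0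
    · exfalso
      subst h0
      obtain ⟨i, hi, h1⟩ := hp.f0
      obtain ⟨j, hj, h2⟩ := hp.fl
      exact hs.1 i j hi.le hj.le (h1 ▸ h2)
    · exact h0
  refine ⟨hlpos, ?_, ?_, ?_, ?_, ?_, ?_, ?_, ?_⟩
  · -- a vertex on the first cycle
    intro i j hi hj1 hjl hf
    obtain ⟨i', hi', he⟩ := cyc_lt hg hi
    have := hmin (l - j) (fun t => f (j + t)) (fun t => z (j + t))
      { f0 := ⟨i', hi', by rw [← he, ← hf]; rfl⟩
        fl := by
          obtain ⟨k, hk, h2⟩ := hp.fl
          refine ⟨k, hk, ?_⟩
          rw [← h2]
          congr 1
          omega
        fP := fun t ht => hp.fP _ (by omega)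
        zP := fun t ht => hp.zP (j + t) (by omega)
        aM := fun t ht => hp.aM (j + t) (by omega)
        aN := fun t ht => hp.aN (j + t) (by omega) }
    omega
  · -- a vertex on the second cycle
    intro i j hi hjl hf
    obtain ⟨i', hi', he⟩ := cyc_lt hh hi
    have := hmin j f z
      { f0 := hp.f0
        fl := ⟨i', hi', by rw [← he, ← hf]⟩
        fP := fun t ht => hp.fP _ (by omega)
        zP := fun t ht => hp.zP _ (by omega)
        aM := fun t ht => hp.aM _ (by omega)
        aN := fun t ht => hp.aN _ (by omega) }
    omega
  · -- m1
    intro i j hi hj1 hjl hA
    obtain ⟨i', hi', he⟩ := cyc_lt hg hi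
    have := hmin (l - j) (fun t => if t = 0 then g i else f (j + t)) (fun t => z (j + t))
      { f0 := ⟨i', hi', by simpa using he⟩
        fl := by
          obtain ⟨k, hk, h2⟩ := hp.fl
          refine ⟨k, hk, ?_⟩
          rw [← h2, if_neg (by omega)]
          congr 1
          omega
        fP := by
          intro t ht
          by_cases h0 : t = 0
          · simp only [h0, if_true]; exact cyc_mem hg hi
          · simp only [h0, if_false]; exact hp.fP _ (by omega)
        zP := fun t ht => hp.zP (j + t) (by omega)
        aM := by
          intro t ht
          by_cases h0 : t = 0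
          · subst h0; simpa using hA
          · simp only [h0, if_false]; exact hp.aM _ (by omega)
        aN := by
          intro t ht
          simp only [Nat.succ_ne_zero, if_false]
          exact hp.aN (j + t) (by omega) }
    omega
  · -- m2
    intro i j hij hjl hA
    have := hmin (l - (j - i)) (fun t => if t ≤ i then f t else f (t + (j - i)))
      (fun t => if t < i then z t else z (t + (j - i)))
      { f0 := by simpa using hp.f0
        fl := by
          obtain ⟨k, hk, h2⟩ := hp.fl
          refine ⟨k, hk, ?_⟩
          rw [← h2, if_neg (by omega)]
          congr 1
          omega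
        fP := by
          intro t ht
          by_cases h0 : t ≤ i
          · simp only [h0, if_true]; exact hp.fP _ (by omega)
          · simp only [h0, if_false]; exact hp.fP _ (by omega)
        zP := by
          intro t ht
          by_cases h0 : t < i
          · simp only [h0, if_true]; exact hp.zP _ (by omega)
          · simp only [h0, if_false]; exact hp.zP _ (by omega)
        aM := by
          intro t ht
          rcases lt_trichotomy t i with h0 | h0 | h0
          · simp only [h0, h0.le, if_true]; exact hp.aM _ (by omega)
          · subst h0
            simp only [le_refl, lt_irrefl, if_true, if_false]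
            have : t + (j - t) = j := by omega
            rw [this]; exact hA
          · rw [if_neg (by omega), if_neg (by omega)]; exact hp.aM _ (by omega)
        aN := by
          intro t ht
          rcases lt_or_ge t i with h0 | h0
          · rw [if_pos (by omega), if_pos h0]; exact hp.aN _ (by omega)
          · rw [if_neg (by omega), if_neg (by omega)]
            have : t + 1 + (j - i) = t + (j - i) + 1 := by omega
            rw [this]; exact hp.aN _ (by omega) }
    omega
  · -- m3
    intro i j hi hj hA
    obtain ⟨k, hk, hek⟩ := cyc_lt hh (show j + 1 ≤ b from hj)
    have := hmin (i + 1) (fun t => if t ≤ i then f t else h (j + 1))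
      (fun t => if t < i then z t else e j)
      { f0 := by simpa using hp.f0
        fl := by
          refine ⟨k, hk, ?_⟩
          rw [if_neg (by omega)]
          exact hek
        fP := by
          intro t ht
          by_cases h0 : t ≤ i
          · simp only [h0, if_true]; exact hp.fP _ (by omega)
          · simp only [h0, if_false]; exact cyc_mem hh hj
        zP := by
          intro t ht
          by_cases h0 : t < i
          · simp only [h0, if_true]; exact hp.zP _ (by omega)
          · simp only [h0, if_false]; exact hh.eP j hj
        aM := by
          intro t ht
          rcases lt_or_ge t i with h0 | h0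
          · simp only [h0, h0.le, if_true]; exact hp.aM _ (by omega)
          · have h1 : t = i := by omega
            subst h1
            simp only [le_refl, lt_irrefl, if_true, if_false]
            exact hA
        aN := by
          intro t ht
          rcases lt_or_ge t i with h0 | h0
          · rw [if_pos (by omega), if_pos h0]; exact hp.aN _ (by omega)
          · rw [if_neg (by omega), if_neg (by omega)]
            exact hh.aN j hj }
    omega
  · -- n1
    intro i j hi hj hA
    obtain ⟨k, hk, hek⟩ := cyc_lt hh hi
    have := hmin (j + 1) (fun t => if t ≤ j then f t else h i) z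
      { f0 := by simpa using hp.f0
        fl := by
          refine ⟨k, hk, ?_⟩
          rw [if_neg (by omega)]
          exact hek
        fP := by
          intro t ht
          by_cases h0 : t ≤ j
          · simp only [h0, if_true]; exact hp.fP _ (by omega)
          · simp only [h0, if_false]; exact cyc_mem hh hi
        zP := fun t ht => hp.zP _ (by omega)
        aM := by
          intro t ht
          rw [if_pos (by omega)]; exact hp.aM _ (by omega)
        aN := by
          intro t ht
          rcases lt_or_ge t j with h0 | h0
          · rw [if_pos (by omega)]; exact hp.aN _ (by omega)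
          · rw [if_neg (by omega)]
            have h1 : t = j := by omega
            rw [h1]; exact hA }
    omega
  · -- n2
    intro i j hij hil hA
    have := hmin (l - (i - (j + 1))) (fun t => if t ≤ j then f t else f (t + (i - (j + 1))))
      (fun t => if t ≤ j then z t else z (t + (i - (j + 1))))
      { f0 := by simpa using hp.f0
        fl := by
          obtain ⟨k, hk, h2⟩ := hp.fl
          refine ⟨k, hk, ?_⟩
          rw [← h2, if_neg (by omega)]
          congr 1
          omega
        fP := by
          intro t ht
          by_cases h0 : t ≤ j
          · simp only [h0, if_true]; exact hp.fP _ (by omega)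
          · simp only [h0, if_false]; exact hp.fP _ (by omega)
        zP := by
          intro t ht
          by_cases h0 : t ≤ j
          · simp only [h0, if_true]; exact hp.zP _ (by omega)
          · simp only [h0, if_false]; exact hp.zP _ (by omega)
        aM := by
          intro t ht
          by_cases h0 : t ≤ j
          · simp only [h0, if_true]; exact hp.aM _ (by omega)
          · simp only [h0, if_false]; exact hp.aM _ (by omega)
        aN := by
          intro t ht
          rcases lt_trichotomy t j with h0 | h0 | h0
          · rw [if_pos (by omega), if_pos (by omega)]; exact hp.aN _ (by omega)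
          · subst h0
            rw [if_neg (by omega), if_pos le_rfl]
            have : t + 1 + (i - (t + 1)) = i := by omega
            rw [this]; exact hA
          · rw [if_neg (by omega), if_neg (by omega)]
            have : t + 1 + (i - (j + 1)) = t + (i - (j + 1)) + 1 := by omega
            rw [this]; exact hp.aN _ (by omega) }
    omega
  · -- n3
    intro i j h2i hil hj hA
    obtain ⟨k, hk, hek⟩ := cyc_lt hg (show j + 1 ≤ a from hj)
    have := hmin (l - (i - 1)) (fun t => if t = 0 then g (j + 1) else f (t + (i - 1)))
      (fun t => if t = 0 then d j else z (t + (i - 1)))
      { f0 := ⟨k, hk, by simpa using hek⟩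
        fl := by
          obtain ⟨k, hk, h2⟩ := hp.fl
          refine ⟨k, hk, ?_⟩
          rw [← h2, if_neg (by omega)]
          congr 1
          omega
        fP := by
          intro t ht
          by_cases h0 : t = 0
          · simp only [h0, if_true]; exact cyc_mem hg hj
          · simp only [h0, if_false]; exact hp.fP _ (by omega)
        zP := by
          intro t ht
          by_cases h0 : t = 0
          · simp only [h0, if_true]; exact hg.eP j hj
          · simp only [h0, if_false]; exact hp.zP _ (by omega)
        aM := by
          intro t ht
          by_cases h0 : t = 0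
          · simp only [h0, if_true]; exact hg.aN j hj
          · simp only [h0, if_false]; exact hp.aM _ (by omega)
        aN := by
          intro t ht
          by_cases h0 : t = 0
          · subst h0
            rw [if_neg (by omega), if_pos rfl]
            have : 0 + 1 + (i - 1) = i := by omega
            rw [this]; exact hA
          · rw [if_neg (by omega), if_neg h0]
            have : t + 1 + (i - 1) = t + (i - 1) + 1 := by omega
            rw [this]; exact hp.aN _ (by omega) }
    omega

end Pool.Agent.R3M.H89
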