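import Pool.Agent.Helper89_R3M.Ptm

/-!
# R3M: a shortest path between two cycles exists (row PTE)
-/

set_option autoImplicit false

namespace Pool.Agent.R3M.H89

open Pool.Agent.R3M

section
variable {α : Type} [DecidableEq α]

/-- A walk in the exchange digraph as a pair of sequences. -/
theorem walk_seq {M N : Mat α} {P : Finset α} {x y : α} (hx : x ∈ P)
    (hw : Relation.ReflTransGen (Stp M N P) x y) :
    ∃ (l : ℕ) (f z : ℕ → α), f 0 = x ∧ f l = y ∧ (∀ j, j ≤ l → f j ∈ P) ∧
      (∀ j, j < l → z j ∉ P) ∧ (∀ j, j < l → Arc M P (f j) (z j)) ∧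
      (∀ j, j < l → Arc N P (f (j + 1)) (z j)) := by
  induction hw with
  | refl =>
    exact ⟨0, fun _ => x, fun _ => x, rfl, rfl, fun _ _ => hx, fun j hj => absurd hj (by omega),
      fun j hj => absurd hj (by omega), fun j hj => absurd hj (by omega)⟩
  | @tail y1 y2 _ hs ih =>
    obtain ⟨l, f, z, h0, hl, hP, hz, hM, hN⟩ := ih
    obtain ⟨hy1, hy2, w, hw, hAM, hAN⟩ := hs
    refine ⟨l + 1, fun t => if t ≤ l then f t else y2, fun t => if t < l then z t else w,
      ?_, ?_, ?_, ?_, ?_, ?_⟩
    · simpa using h0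
    · show (if l + 1 ≤ l then f (l + 1) else y2) = y2
      rw [if_neg (by omega)]
    · intro j hj
      by_cases h : j ≤ l
      · simp only [h, if_true]; exact hP j h
      · simp only [h, if_false]; exact hy2
    · intro j hj
      by_cases h : j < l
      · simp only [h, if_true]; exact hz j h
      · simp only [h, if_false]; exact hw
    · intro j hj
      by_cases h : j < l
      · simp only [h, h.le, if_true]; exact hM j h
      · have h1 : j = l := by omega
        subst h1
        simp only [le_refl, lt_irrefl, if_true, if_false]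
        rw [hl]; exact hAM
    · intro j hj
      show Arc N P (if j + 1 ≤ l then f (j + 1) else y2) (if j < l then z j else w)
      by_cases h : j < l
      · rw [if_pos (by omega), if_pos h]; exact hN j h
      · rw [if_neg (by omega), if_neg h]; exact hAN

end

theorem pte : PteStmt := by
  intro α _ M N P S a b g d h e hg hh hirr
  have a2 := hg.two
  have b2 := hh.two
  have hex : ∃ l : ℕ, ∃ f z : ℕ → α, Pth M N P a l b g f z h := by
    have hgP : g 0 ∈ P := hg.hP 0 (by omega)
    have hhP : h 0 ∈ P := hh.hP 0 (by omega)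
    obtain ⟨l, f, z, h0, hl, hP, hz, hM, hN⟩ := walk_seq hgP (hirr _ hgP _ hhP)
    exact ⟨l, f, z, ⟨⟨0, by omega, h0⟩, ⟨0, by omega, hl⟩, hP, hz, hM, hN⟩⟩
  classical
  obtain ⟨f, z, hp⟩ := Nat.find_spec hex
  refine ⟨Nat.find hex, f, z, hp, fun l' f' z' hp' => ?_⟩
  exact Nat.find_min' hex ⟨f', z', hp'⟩

end Pool.Agent.R3M.H89
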