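import Pool.Agent.Helper89_R3M.Ptm

/-!
# R3M: rotation of a cycle (row ROT)
-/

set_option autoImplicit false

namespace Pool.Agent.R3M.H89

open Pool.Agent.R3M

theorem rot_inj {m r i j : ℕ} (hi : i < m) (hj : j < m)
    (h : (i + r) % m = (j + r) % m) : i = j := by
  have h1 : i ≡ j [MOD m] := Nat.ModEq.add_right_cancel' r h
  have h2 : i % m = j % m := h1
  rwa [Nat.mod_eq_of_lt hi, Nat.mod_eq_of_lt hj] at h2

theorem rot : RotStmt := by
  intro α _ M N P S m h e r hc hr
  have m2 := hc.two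
  have mpos : 0 < m := by omega
  have hmod : ∀ i, i ≤ m → h (i % m) = h i := by
    intro i hi
    rcases Nat.lt_or_ge i m with h1 | h1
    · rw [Nat.mod_eq_of_lt h1]
    · have h2 : i = m := le_antisymm hi h1
      rw [h2, Nat.mod_self, hc.wrap]
  have hlt : ∀ i, (i + r) % m < m := fun i => Nat.mod_lt _ mpos
  have hsucc : ∀ i, h ((i + 1 + r) % m) = h ((i + r) % m + 1) := by
    intro i
    have h1 : (i + 1 + r) % m = ((i + r) % m + 1) % m := by
      have : i + 1 + r = i + r + 1 := by omega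
      rw [this, Nat.add_mod (i + r) 1 m, Nat.add_mod ((i + r) % m) 1 m, Nat.mod_mod]
    rw [h1]
    exact hmod _ (hlt i)
  have hsurj : ∀ j, j < m → ∃ i, i < m ∧ (i + r) % m = j := by
    intro j hj
    refine ⟨(j + (m - r)) % m, Nat.mod_lt _ mpos, ?_⟩
    rw [Nat.mod_add_mod]
    have : j + (m - r) + r = j + m := by omega
    rw [this, Nat.add_mod_right, Nat.mod_eq_of_lt hj]
  refine ⟨fun i => h ((i + r) % m), fun i => e ((i + r) % m), ?_, ?_, ?_, ?_, ?_, ?_, ?_, ?_, ?_⟩
  · exact
      { two := m2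
        hP := fun i _ => hc.hP _ (hlt i)
        hS := fun i _ => hc.hS _ (hlt i)
        eS := fun i _ => hc.eS _ (hlt i)
        eP := fun i _ => hc.eP _ (hlt i)
        wrap := by
          show h ((m + r) % m) = h ((0 + r) % m)
          rw [Nat.add_mod_left, Nat.zero_add]
        hinj := fun i j hi hj hh => rot_inj hi hj (hc.hinj _ _ (hlt i) (hlt j) hh)
        einj := fun i j hi hj hh => rot_inj hi hj (hc.einj _ _ (hlt i) (hlt j) hh)
        aM := fun i _ => hc.aM _ (hlt i)
        aN := fun i _ => by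
          show Arc N P (h ((i + 1 + r) % m)) (e ((i + r) % m))
          rw [hsucc i]; exact hc.aN _ (hlt i)
        cM := fun i j hi hj hij => hc.cM _ _ (hlt i) (hlt j) (fun hh => hij (rot_inj hi hj hh))
        cN := fun i j hi hj hij => by
          show ¬ Arc N P (h ((i + 1 + r) % m)) (e ((j + r) % m))
          rw [hsucc i]
          exact hc.cN _ _ (hlt i) (hlt j) (fun hh => hij (rot_inj hi hj hh)) }
  · show h ((0 + r) % m) = h r
    rw [Nat.zero_add, Nat.mod_eq_of_lt hr]
  · show h ((1 + r) % m) = h (r + 1)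
    rw [Nat.add_comm 1 r]
    exact hmod (r + 1) hr
  · show h ((m - 1 + 1 + r) % m) = h r
    have : m - 1 + 1 + r = m + r := by omega
    rw [this, Nat.add_mod_left, Nat.mod_eq_of_lt hr]
  · show e ((m - 1 + r) % m) = if r = 0 then e (m - 1) else e (r - 1)
    by_cases h0 : r = 0
    · rw [if_pos h0, h0, Nat.add_zero, Nat.mod_eq_of_lt (by omega)]
    · rw [if_neg h0]
      have : m - 1 + r = m + (r - 1) := by omega
      rw [this, Nat.add_mod_left, Nat.mod_eq_of_lt (by omega)]
  · exact fun i _ => ⟨_, (hlt i).le, rfl⟩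
  · exact fun i _ => ⟨_, hlt i, rfl⟩
  · intro j hj
    obtain ⟨k, hk, hek⟩ := cyc_lt hc hj
    obtain ⟨i, hi, hi2⟩ := hsurj k hk
    refine ⟨i, hi.le, ?_⟩
    show h ((i + r) % m) = h j
    rw [hi2, hek]
  · intro j hj
    obtain ⟨i, hi, hi2⟩ := hsurj j hj
    refine ⟨i, hi, ?_⟩
    show e ((i + r) % m) = e j
    rw [hi2]

end Pool.Agent.R3M.H89
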